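import Pool.Agent.P.MP_75e851_co.FewNeg

set_option autoImplicit false

namespace Pool.Agent.Results.MP_75e851_co.FewClasses

/-- For `D ≥ 4` and `μ ≥ 1`, the least number `m` of classes in a bipartite family with classes of
size at least `D + 2`, degrees at most `D`, every pair in at most `μ` classes and no full rainbow
matching exists, and `m ^ 2 * min μ m` has the order of `D`. -/
theorem result :
    ∀ D : ℕ, 4 ≤ D → ∀ μ : ℕ, 1 ≤ μ → ∃ m : ℕ,
      IsLeast {m : ℕ | ∃ (X Y : Type) (E : Fin m → Set (X × Y)),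
          (∀ i, (E i).Finite) ∧
          (∀ i, D + 2 ≤ (E i).ncard) ∧
          (∀ x, ∑ i, {y | (x, y) ∈ E i}.ncard ≤ D) ∧
          (∀ y, ∑ i, {x | (x, y) ∈ E i}.ncard ≤ D) ∧
          (∀ e, {i | e ∈ E i}.ncard ≤ μ) ∧
          ¬ ∃ f : Fin m → X × Y, (∀ i, f i ∈ E i) ∧
              Function.Injective (fun i => (f i).1) ∧
              Function.Injective (fun i => (f i).2)} m ∧
        D ≤ 16 * m ^ 2 * min μ m ∧ m ^ 2 * min μ m ≤ 5000000 * D :=
  fun _ hD _ hμ => Pool.Agent.P.MP_75e851_co.Few.least hD hμ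

end Pool.Agent.Results.MP_75e851_co.FewClasses
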