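import Pool.Agent.P.MP_75e851_co.Log

set_option autoImplicit false

namespace Pool.Agent.Results.MP_75e851_co.LogExcess

open Pool.Agent.P.MP_75e851_co Function

/-- For every `d ≥ 3` there is a finite `d`-regular bipartite multigraph (sides `A`, `B`, edge set
`G`, the edge `x` joins `l x` to `r x`) whose edge set is partitioned into matchings
`E 0, …, E (m - 1)`, each with at least `max (d + 2) (d + log d - 6 log log d - 6)` edges, without
a rainbow matching. -/
theorem result (d : ℕ) (hd : 3 ≤ d) :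
    ∃ (A B G : Type) (_ : Finite G) (l : G → A) (r : G → B) (m : ℕ) (E : Fin m → Set G),
      (∀ a, {x | l x = a}.ncard = d) ∧ (∀ b, {x | r x = b}.ncard = d) ∧
      (∀ x, ∃! i, x ∈ E i) ∧ (∀ i, (E i).InjOn l ∧ (E i).InjOn r) ∧
      (∀ i, max (d + 2 : ℝ) (d + Real.log d - 6 * Real.log (Real.log d) - 6) ≤ (E i).ncard) ∧
      ¬ ∃ f : Fin m → G, (∀ i, f i ∈ E i) ∧ Injective (l ∘ f) ∧ Injective (r ∘ f) := by
  obtain ⟨t, h1, h2, A, B, G, _, l, r, m, E, a1, a2, a3, a4, a5, a6⟩ := Lg.main hd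
  exact ⟨A, B, G, inferInstance, l, r, m, E, a1, a2, a3, a4,
    fun i => (max_le (by exact_mod_cast h1) h2).trans (Nat.cast_le.2 (a5 i)), a6⟩

end Pool.Agent.Results.MP_75e851_co.LogExcess
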