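import Pool.Agent.P.MP_75e851_co.R3.All

set_option autoImplicit false

namespace Pool.Agent.Results.MP_75e851_co.SimpleCubic

open Finset Function

/-- Simple bipartite graphs (an edge is a pair: left end, right end) of maximum degree at most
`d ≤ 3`: pairwise disjoint edge sets with at least `d + 2` edges each have a rainbow matching. -/
theorem result (d : ℕ) (hd : d ≤ 3) (A B ι : Type) [DecidableEq A] [DecidableEq B] [Fintype ι]
    (E : ι → Finset (A × B)) (hE : ∀ i j, i ≠ j → Disjoint (E i) (E j))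
    (hA : ∀ a, #{e ∈ univ.biUnion E | e.1 = a} ≤ d)
    (hB : ∀ b, #{e ∈ univ.biUnion E | e.2 = b} ≤ d) (hs : ∀ i, d + 2 ≤ #(E i)) :
    ∃ f : ι → A × B, (∀ i, f i ∈ E i) ∧ Injective (Prod.fst ∘ f) ∧ Injective (Prod.snd ∘ f) :=
  Pool.Agent.P.MP_75e851_co.R3.q_all hd A B ι E hE hA hB hs

end Pool.Agent.Results.MP_75e851_co.SimpleCubic
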