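import Pool.Agent.P.MP_75e851_co.Simple

set_option autoImplicit false

namespace Pool.Agent.Results.MP_75e851_co.SimpleProper

open Pool.Agent.P.MP_75e851_co Finset Function

/-- There are 31 pairwise disjoint matchings with 6 edges each in a simple bipartite graph (an edge
is a pair, its first coordinate the left end and its second the right end) whose union has maximum
degree at most 4 and that have no rainbow matching. -/
theorem result : ∃ E : Fin 31 → Finset (Fin 60 × Fin 60),
    (∀ i j, i ≠ j → Disjoint (E i) (E j)) ∧ (∀ i, #(E i) = 6) ∧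
    (∀ i, Set.InjOn Prod.fst (E i : Set (Fin 60 × Fin 60)) ∧
      Set.InjOn Prod.snd (E i : Set (Fin 60 × Fin 60))) ∧
    (∀ a, #{x ∈ univ.biUnion E | x.1 = a} ≤ 4 ∧ #{x ∈ univ.biUnion E | x.2 = a} ≤ 4) ∧
    ¬ ∃ f : Fin 31 → Fin 60 × Fin 60,
      (∀ i, f i ∈ E i) ∧ Injective (Prod.fst ∘ f) ∧ Injective (Prod.snd ∘ f) :=
  ⟨Sm.E, Sm.disj, Sm.card_E, Sm.matching, Sm.degree, fun ⟨f, a, b, c⟩ => Sm.no_rainbow f a b c⟩

end Pool.Agent.Results.MP_75e851_co.SimpleProper
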